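import Pool.Agent.H55.QP.Targets
import Pool.Agent.H58.QO.PADO

/-!
# MP_0f8dca_lc: row PAD of board QP, padding of the clauses
-/

set_option autoImplicit false

namespace Pool.Agent.H41.QP

open Finset Matrix Pool.Agent.H55.QP
open Pool.Agent.H1.LP (Clause viol)
open Pool.Agent.H78.KX (ext ext_sat ext_card ext_card' sum_pad viol_pad pad pe)
open Pool.Agent.H36.UV (padu_exp)
open Pool.Agent.H58.QO (cut cut_ext cut_sat)
open scoped ComplexOrder

/-- the restriction of a pool -/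
noncomputable def restP {n r : ℕ} (P : QPool (n + r)) : QPool n where
  cell := univ.filter (fun x => Fin.append x (fun _ : Fin r => false) ∈ P.cell)
  nb := P.nb
  ord := P.ord
  st := fun x => P.st (Fin.append x (fun _ => false))
  nc := P.nc
  cl := fun t => cut (P.cl t)
  en := fun t x => P.en t (Fin.append x (fun _ => false))
  psd := fun _ hx i => P.psd _ (mem_filter.1 hx).2 i
  sub := fun _ hx i => P.sub _ (mem_filter.1 hx).2 i
  bdd := fun _ hx t => P.bdd _ (mem_filter.1 hx).2 t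
  sound := fun x hx t ht => P.sound _ (mem_filter.1 hx).2 t (cut_sat _ x ht)

theorem psd_shift {o : ℕ} (H : Matrix (Fin o) (Fin o) ℂ) (de de' : ℝ) (hd : de' ≤ de)
    (h : (H - (de : ℂ) • (1 : Matrix (Fin o) (Fin o) ℂ)).PosSemidef) :
    (H - (de' : ℂ) • (1 : Matrix (Fin o) (Fin o) ℂ)).PosSemidef := by
  have h1 : ((((de - de' : ℝ) : ℂ)) • (1 : Matrix (Fin o) (Fin o) ℂ)).PosSemidef := by
    refine Matrix.PosSemidef.smul Matrix.PosSemidef.one ?_
    have : (0 : ℝ) ≤ de - de' := sub_nonneg.2 hd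
    exact_mod_cast this
  have h2 := h.add h1
  have e : H - (de : ℂ) • (1 : Matrix (Fin o) (Fin o) ℂ) +
      (((de - de' : ℝ) : ℂ)) • (1 : Matrix (Fin o) (Fin o) ℂ) =
      H - (de' : ℂ) • (1 : Matrix (Fin o) (Fin o) ℂ) := by
    push_cast
    rw [sub_smul]
    abel
  rwa [e] at h2

theorem certifiedBy_pad {n r m M : ℕ} (P : Fin M → QPool (n + r)) (phi : Fin m → Clause n)
    (de de' er er' S S' : ℝ) (hd : de' ≤ de) (he : er ≤ er') (hS : S ≤ S')
    (h : CertifiedBy P (pad r phi) de er S) :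
    CertifiedBy (fun j => restP (P j)) phi de' er' S' := by
  obtain ⟨J, I, T, h1, h2, h3, hs⟩ := h
  refine ⟨J, I, T, ?_, ?_, ?_, ?_⟩
  · intro j hj j' hj' hne
    have := h1 j hj j' hj' hne
    rw [Finset.disjoint_left] at this ⊢
    intro x hx hx'
    exact this (mem_filter.1 hx).2 (mem_filter.1 hx').2
  · intro x
    obtain ⟨j, hj, hx⟩ := h2 (Fin.append x (fun _ => false))
    exact ⟨j, hj, mem_filter.2 ⟨mem_univ _, hx⟩⟩
  · intro j hj
    obtain ⟨h4, h5, w, H, h6, h7, h8, h9⟩ := h3 j hj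
    refine ⟨fun t ht => ?_, fun x hx => h5 _ (mem_filter.1 hx).2, w, H, h6, h7,
      fun x hx => (h8 _ (mem_filter.1 hx).2).trans he, fun i hi => psd_shift _ _ _ hd (h9 i hi)⟩
    obtain ⟨i, hi⟩ := h4 t ht
    refine ⟨(pe m r i).1, ?_⟩
    change phi (pe m r i).1 = cut ((P j).cl t)
    rw [← hi]
    exact (cut_ext _ _).symm
  · exact hs.trans hS

theorem pf_PAD : S_PAD := by
  classical
  intro w k ε c c' C C' hwk hcc hCC hH
  obtain ⟨r, rfl⟩ := Nat.exists_eq_add_of_le hwk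
  obtain ⟨K, γ, hγ, n₀, hn₀⟩ := hH
  obtain ⟨N1, hN1⟩ := exists_nat_ge (c * r / (c - c'))
  obtain ⟨N3, hN3⟩ := exists_nat_ge (C * r / (C - C'))
  obtain ⟨N2, hN2⟩ := exists_nat_ge ((γ + 1) * r / (γ / 2))
  refine ⟨K * 2 ^ r, γ / 2, by positivity, n₀ + r + N1 + N2 + N3, ?_⟩
  intro n hn
  obtain ⟨n1, rfl⟩ : ∃ n1, n = n1 + r := ⟨n - r, by omega⟩
  obtain ⟨Y, m, phi, hY, hphi, hmain⟩ := hn₀ n1 (by omega)
  have hA := padu_exp c c' r n1 N1 (sub_pos.2 hcc) hN1 (by omega)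
  have hA' := padu_exp C C' r n1 N3 (sub_pos.2 hCC) hN3 (by omega)
  have hB : (γ + 1) * r ≤ ((n1 + r : ℕ) : ℝ) * (γ / 2) := by
    have h1 : (N2 : ℝ) ≤ ((n1 + r : ℕ) : ℝ) := by exact_mod_cast (by omega : N2 ≤ n1 + r)
    exact (div_le_iff₀ (by positivity)).1 (hN2.trans h1)
  have hD : (2 : ℝ) ^ (-(γ * n1)) ≤ (2 : ℝ) ^ (-(γ / 2 * ((n1 + r : ℕ) : ℝ))) := by
    refine Real.rpow_le_rpow_of_exponent_le (by norm_num) ?_
    have h3 : ((n1 + r : ℕ) : ℝ) = n1 + r := by push_cast; ring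
    have h4 : (0 : ℝ) ≤ r := Nat.cast_nonneg r
    rw [h3] at hB ⊢
    nlinarith
  have hE : (2 : ℝ) ^ (-((n1 + r : ℕ) : ℝ)) ≤ (2 : ℝ) ^ (-(n1 : ℝ)) := by
    refine Real.rpow_le_rpow_of_exponent_le (by norm_num) ?_
    have : (n1 : ℝ) ≤ ((n1 + r : ℕ) : ℝ) := by exact_mod_cast Nat.le_add_right n1 r
    linarith
  refine ⟨Y, fun a => m a * 2 ^ r, fun a => pad r (phi a), hY, ?_, ?_⟩
  · intro a
    obtain ⟨h1, h2, h3, h4⟩ := hphi a
    refine ⟨Nat.mul_pos h1 (by positivity), ?_, ?_, ?_⟩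
    · calc m a * 2 ^ r ≤ K * n1 * 2 ^ r := Nat.mul_le_mul_right _ h2
        _ = K * 2 ^ r * n1 := by ring
        _ ≤ K * 2 ^ r * (n1 + r) := Nat.mul_le_mul_left _ (by omega)
    · intro i
      unfold pad
      exact ⟨by rw [ext_card, (h3 _).1], by rw [ext_card', (h3 _).2]⟩
    · intro x
      rw [viol_pad]
      refine le_trans (le_of_eq ?_) (h4 _)
      have h5 : (((m a * 2 ^ r : ℕ) : ℝ)) = m a * 2 ^ r := by push_cast; ring
      rw [h5, pow_add]
      field_simp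
  · intro M P hP
    have h1 := hmain M (fun j => restP (P j)) ?_
    · refine le_trans ?_ (h1.trans (mul_le_mul_of_nonneg_right hD (by positivity)))
      refine Nat.cast_le.2 (Finset.card_le_card fun a ha => ?_)
      rw [mem_filter] at ha ⊢
      exact ⟨ha.1, certifiedBy_pad P (phi a) _ _ _ _ _ _ hD hE
        (Real.rpow_le_rpow_of_exponent_le (by norm_num) hA) ha.2⟩
    · refine le_trans (le_of_eq ?_)
        (hP.trans (Real.rpow_le_rpow_of_exponent_le (by norm_num) hA'))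
      rfl

end Pool.Agent.H41.QP
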